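import Pool.Agent.W787.PS.StmA

/-!
# Project PS: the neck lemma
-/

set_option autoImplicit false

open MeasureTheory Set Metric Filter Topology

noncomputable section

namespace Pool.Agent.W787.PS

lemma nk_ms_mono {ρ : ℂ → ℝ} (hi : Integrable ρ) (h0 : ∀ x, 0 ≤ ρ x) {S T : Set ℂ} (h : S ⊆ T) :
    ∫ x in S, ρ x ≤ ∫ x in T, ρ x :=
  setIntegral_mono_set hi.integrableOn (ae_of_all _ h0) (LE.le.eventuallyLE h)

lemma nk_diff {ρ : ℂ → ℝ} (hi : Integrable ρ) {r s : ℝ} (h : r ≤ s) :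
    ∫ x in ball (0 : ℂ) s \ ball 0 r, ρ x = ms ρ 0 s - ms ρ 0 r := by
  unfold ms
  exact setIntegral_sdiff measurableSet_ball hi.integrableOn (ball_subset_ball h)

lemma nk_union {ι : Type*} {ρ : ℂ → ℝ} (hi : Integrable ρ) (h0 : ∀ x, 0 ≤ ρ x) (I : Finset ι)
    (B : ι → Set ℂ) (hB : ∀ i ∈ I, MeasurableSet (B i)) {S : Set ℂ} (hS : MeasurableSet S)
    (h : ∀ x ∈ S, ∃ i ∈ I, x ∈ B i) :
    ∫ x in S, ρ x ≤ ∑ i ∈ I, ∫ x in B i, ρ x := by
  rw [← integral_indicator hS]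
  have e : ∑ i ∈ I, ∫ x in B i, ρ x = ∫ x, ∑ i ∈ I, (B i).indicator ρ x := by
    rw [integral_finsetSum]
    · apply Finset.sum_congr rfl
      intro i hi'
      rw [integral_indicator (hB i hi')]
    · intro i hi'
      exact hi.indicator (hB i hi')
  rw [e]
  apply integral_mono (hi.indicator hS)
  · exact integrable_finsetSum _ fun i hi' => hi.indicator (hB i hi')
  · intro x
    have hnn : ∀ i ∈ I, 0 ≤ (B i).indicator ρ x := fun i _ => indicator_nonneg (fun x _ => h0 x) x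
    by_cases hx : x ∈ S
    · obtain ⟨i, hi1, hi2⟩ := h x hx
      simp only [indicator_of_mem hx]
      have : ρ x = (B i).indicator ρ x := by rw [indicator_of_mem hi2]
      rw [this]
      exact Finset.single_le_sum hnn hi1
    · simp only [indicator_of_notMem hx]
      exact Finset.sum_nonneg hnn

theorem nk1 (h1 : S_RJS) (h2 : S_CMP) (h3 : S_SCM) (h4 : S_JEN) (h5 : S_MONO) : S_NK1 := by
  intro Λ C₀ η hΛ hC₀ hη
  have hpi := Real.pi_pos
  obtain ⟨ε₁, CR, hε₁, hCR, hR⟩ := h1 Real.pi 1 Λ C₀ hpi le_rfl (by linarith) hΛ hC₀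
  obtain ⟨Cc, hCc, hC⟩ := h2
  refine ⟨min ε₁ 1, CR / Real.pi * Real.exp (Cc * (Λ + C₀) + Cc ^ 2 * Real.pi / η), η / (4 * Real.pi),
    lt_min hε₁ one_pos, by positivity, by positivity, ?_⟩
  intro R L ρ g w hL hRL D hm hout a t ha1 ha2 ht1 htR
  have hε0 : 0 < min ε₁ 1 := lt_min hε₁ one_pos
  have hi : Integrable ρ := D.diff.continuous.integrable_of_hasCompactSupport D.supp
  have D₁ : IsDatum Λ R L ε₁ ρ g w := h5 _ _ _ _ _ _ _ _ _ _ D le_rfl le_rfl
    (pow_le_pow_left₀ hε0.le (min_le_left _ _) 2)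
  have ht0 : 0 < t := by linarith
  have hna : ‖(t : ℂ) * a‖ = t * ‖a‖ := by
    rw [norm_mul, Complex.norm_real, Real.norm_of_nonneg ht0.le]
  have htL : t * L ≤ C₀ := (mul_le_mul_of_nonneg_right (by linarith) hL).trans hRL
  have hsub : ball ((t : ℂ) * a) (4 * (t / 16)) ⊆ ball (0 : ℂ) R \ ball 0 (1 / 2) := by
    intro x hx
    rw [mem_ball, dist_eq_norm] at hx
    have e1 : ‖x‖ ≤ ‖x - t * a‖ + ‖(t : ℂ) * a‖ := by
      have := norm_add_le (x - t * a) ((t : ℂ) * a)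
      rwa [sub_add_cancel] at this
    have e2 : ‖(t : ℂ) * a‖ ≤ ‖x‖ + ‖x - t * a‖ := by
      have := norm_sub_le x (x - t * a)
      rwa [sub_sub_cancel] at this
    rw [hna] at e1 e2
    have e3 : t * ‖a‖ ≤ t * 2 := by gcongr
    have e4 : t * 1 ≤ t * ‖a‖ := by gcongr
    rw [Set.mem_sdiff, mem_ball_zero_iff, mem_ball_zero_iff]
    constructor
    · linarith
    · rw [not_lt]; linarith
  have hmass : ms ρ ((t : ℂ) * a) (4 * (t / 16)) ≤ Real.pi :=
    (nk_ms_mono hi D.nonneg hsub).trans hout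
  have hcenter : ‖(t : ℂ) * a‖ + 4 * (t / 16) ≤ R := by
    rw [hna]
    have e3 : t * ‖a‖ ≤ t * 2 := by gcongr
    linarith
  have key := hR R L ρ g w hL D₁ ((t : ℂ) * a) (t / 16) (by positivity) hcenter
    (by nlinarith) hmass
  have e5 : ∫ x in ball ((t : ℂ) * a) (t / 16), ρ x ^ (1 : ℝ) = ms ρ ((t : ℂ) * a) (t / 16) := by
    unfold ms
    simp only [Real.rpow_one]
  rw [e5, one_mul] at key
  have e6 : avg (fun x => Real.log (ρ x)) ((t : ℂ) * a) (t / 16) =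
      avg (fun x => Real.log (ρ ((t : ℂ) * x))) a (1 / 16) := by
    have := h3.1 (fun x => Real.log (ρ x)) 0 a t (1 / 16) ht0
    simp only [zero_add] at this
    rw [this]
    congr 1
    ring
  rw [e6] at key
  have hcmp := hC Λ R L (min ε₁ 1) ρ g w hΛ hL hε0.le D a t ha1 ha2 ht1 htR
  have hlog : 0 ≤ Real.log t := Real.log_nonneg ht1
  have hjen := h4 Λ R L (min ε₁ 1) ρ g w D a (1 / 16) (by norm_num) (by linarith)
  set A := avg (fun x => Real.log (ρ ((t : ℂ) * x))) a (1 / 16) with hA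
  set B := avg (fun x => Real.log (ρ x)) a (1 / 16) with hB
  set u := Real.sqrt (Real.log t) with hu
  have hu0 : 0 ≤ u := Real.sqrt_nonneg _
  have hu2 : u ^ 2 = Real.log t := Real.sq_sqrt hlog
  have hbound : A ≤ B + (-2 * Real.log t + -(η / (4 * Real.pi)) * Real.log t +
      (Cc * (Λ + C₀) + Cc ^ 2 * Real.pi / η)) := by
    have f1 : Real.log t / (2 * Real.pi) * (4 * Real.pi + η) ≤
        Real.log t / (2 * Real.pi) * ms ρ 0 (1 / 2) := by
      apply mul_le_mul_of_nonneg_left hm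
      positivity
    have f2 : Real.log t / (2 * Real.pi) * (4 * Real.pi + η) =
        2 * Real.log t + 2 * (η / (4 * Real.pi)) * Real.log t := by
      field_simp
      ring
    have f3 : Cc * (Λ + t * L + min ε₁ 1 * u) ≤ Cc * (Λ + C₀) + Cc * u := by
      have : min ε₁ 1 * u ≤ 1 * u := mul_le_mul_of_nonneg_right (min_le_right _ _) hu0
      nlinarith
    have f4 : Cc * u ≤ η / (4 * Real.pi) * Real.log t + Cc ^ 2 * Real.pi / η := by
      rw [← hu2]
      have f5 : 0 ≤ (η / (4 * Real.pi)) * (u - Cc * (2 * Real.pi) / η) ^ 2 := by positivity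
      have f6 : (η / (4 * Real.pi)) * (u - Cc * (2 * Real.pi) / η) ^ 2 =
          η / (4 * Real.pi) * u ^ 2 + Cc ^ 2 * Real.pi / η - Cc * u := by
        field_simp
        ring
      linarith
    have f7 : -(Real.log t / (2 * Real.pi)) * ms ρ 0 (1 / 2) =
        -(Real.log t / (2 * Real.pi) * ms ρ 0 (1 / 2)) := by ring
    rw [f7] at hcmp
    linarith
  have hexp : Real.exp A ≤ t ^ (-(η / (4 * Real.pi))) * (t ^ 2)⁻¹ *
      Real.exp (Cc * (Λ + C₀) + Cc ^ 2 * Real.pi / η) * Real.exp B := by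
    refine (Real.exp_le_exp.mpr hbound).trans (le_of_eq ?_)
    rw [Real.exp_add, Real.exp_add, Real.exp_add]
    have g1 : Real.exp (-2 * Real.log t) = (t ^ 2)⁻¹ := by
      rw [show -2 * Real.log t = -(2 * Real.log t) by ring, Real.exp_neg]
      congr 1
      rw [show (2 : ℝ) * Real.log t = Real.log t + Real.log t by ring, Real.exp_add, Real.exp_log ht0]
      ring
    have g2 : Real.exp (-(η / (4 * Real.pi)) * Real.log t) = t ^ (-(η / (4 * Real.pi))) := by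
      rw [Real.rpow_def_of_pos ht0, mul_comm]
    rw [g1, g2]
    ring
  have hjen' : Real.exp B ≤ 256 / Real.pi * ms ρ a (1 / 16) := by
    have g3 : Real.exp B = 256 / Real.pi * (Real.pi * (1 / 16) ^ 2 * Real.exp B) := by
      field_simp
      norm_num
    rw [g3]
    exact mul_le_mul_of_nonneg_left hjen (by positivity)
  calc ms ρ ((t : ℂ) * a) (t / 16) ≤ CR * (t / 16) ^ 2 * Real.exp A := key
    _ ≤ CR * (t / 16) ^ 2 * (t ^ (-(η / (4 * Real.pi))) * (t ^ 2)⁻¹ *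
      Real.exp (Cc * (Λ + C₀) + Cc ^ 2 * Real.pi / η) * (256 / Real.pi * ms ρ a (1 / 16))) := by
        apply mul_le_mul_of_nonneg_left _ (by positivity)
        refine hexp.trans ?_
        apply mul_le_mul_of_nonneg_left hjen'
        positivity
    _ = _ := by
        field_simp
        ring

theorem nk2 (h1 : S_NK1) : S_NK2 := by
  intro Λ C₀ η hΛ hC₀ hη
  obtain ⟨ε, C₁, κ, hε, hC₁, hκ, hN⟩ := h1 Λ C₀ η hΛ hC₀ hη
  -- finite cover of the annulus
  have hcomp : IsCompact (closedBall (0 : ℂ) 2 \ ball 0 1) :=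
    (isCompact_closedBall _ _).diff isOpen_ball
  obtain ⟨F, hF1, hF2⟩ := hcomp.elim_nhds_subcover (fun a => ball a (1 / 16))
    (fun a _ => ball_mem_nhds a (by norm_num))
  have hq0 : 0 < (2 : ℝ) ^ (-κ) := by positivity
  have hq1 : (2 : ℝ) ^ (-κ) < 1 := Real.rpow_lt_one_of_one_lt_of_neg (by norm_num) (by linarith)
  have hq2 : 0 < 1 - (2 : ℝ) ^ (-κ) := by linarith
  refine ⟨ε, C₁ * (F.card + 1) * (1 - (2 : ℝ) ^ (-κ))⁻¹, hε, by positivity, ?_⟩
  intro R L ρ g w hL hRL hR8 D hm hout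
  have hi : Integrable ρ := D.diff.continuous.integrable_of_hasCompactSupport D.supp
  set E := ms ρ 0 3 - ms ρ 0 (1 / 2) with hE
  have hE' : E = ∫ x in ball (0 : ℂ) 3 \ ball 0 (1 / 2), ρ x := (nk_diff hi (by norm_num)).symm
  have hE0 : 0 ≤ E := by
    rw [hE']
    exact integral_nonneg D.nonneg
  rw [← nk_diff hi (by linarith : (1 : ℝ) ≤ R / 8)]
  obtain ⟨M, hM⟩ := pow_unbounded_of_one_lt (R / 8) (one_lt_two (α := ℝ))
  set I : Finset (ℕ × ℂ) := (Finset.range M ×ˢ F).filter (fun p => 3 * (2 : ℝ) ^ p.1 ≤ R) with hI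
  have hcov : ∀ x ∈ ball (0 : ℂ) (R / 8) \ ball 0 1, ∃ p ∈ I,
      x ∈ ball ((((2 : ℝ) ^ p.1 : ℝ) : ℂ) * p.2) ((2 : ℝ) ^ p.1 / 16) := by
    intro x hx
    rw [Set.mem_sdiff, mem_ball_zero_iff, mem_ball_zero_iff, not_lt] at hx
    obtain ⟨j, hj1, hj2⟩ := exists_nat_pow_near hx.2 (one_lt_two (α := ℝ))
    have hj0 : (0 : ℝ) < 2 ^ j := by positivity
    have hjM : j < M := by
      have : (2 : ℝ) ^ j < 2 ^ M := by linarith
      exact (pow_lt_pow_iff_right₀ (one_lt_two (α := ℝ))).mp this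
    set c : ℂ := (((2 : ℝ) ^ j : ℝ) : ℂ) with hc
    have hc0 : c ≠ 0 := by
      rw [hc]
      exact_mod_cast hj0.ne'
    have hcn : ‖c‖ = 2 ^ j := by
      rw [hc, Complex.norm_real, Real.norm_of_nonneg hj0.le]
    have hy : c⁻¹ * x ∈ closedBall (0 : ℂ) 2 \ ball 0 1 := by
      rw [Set.mem_sdiff, mem_closedBall_zero_iff, mem_ball_zero_iff, not_lt, norm_mul, norm_inv, hcn,
        inv_mul_le_iff₀ hj0, le_inv_mul_iff₀ hj0]
      rw [pow_succ] at hj2
      constructor <;> linarith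
    have hyF := hF2 hy
    rw [mem_iUnion₂] at hyF
    obtain ⟨a, haF, hya⟩ := hyF
    refine ⟨(j, a), ?_, ?_⟩
    · rw [hI, Finset.mem_filter, Finset.mem_product, Finset.mem_range]
      refine ⟨⟨hjM, haF⟩, ?_⟩
      simp only
      linarith
    · rw [mem_ball, dist_eq_norm] at hya ⊢
      have e1 : x - c * a = c * (c⁻¹ * x - a) := by
        rw [mul_sub, mul_inv_cancel_left₀ hc0]
      simp only
      rw [e1, norm_mul, hcn]
      calc (2 : ℝ) ^ j * ‖c⁻¹ * x - a‖ < 2 ^ j * (1 / 16) := by gcongr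
        _ = 2 ^ j / 16 := by ring
  have hterm : ∀ p ∈ I, ∫ x in ball ((((2 : ℝ) ^ p.1 : ℝ) : ℂ) * p.2) ((2 : ℝ) ^ p.1 / 16), ρ x ≤
      C₁ * E * ((2 : ℝ) ^ (-κ)) ^ p.1 := by
    rintro ⟨j, a⟩ hp
    rw [hI, Finset.mem_filter, Finset.mem_product, Finset.mem_range] at hp
    obtain ⟨⟨_, haF⟩, hjR⟩ := hp
    simp only at haF hjR ⊢
    have ha := hF1 a haF
    rw [Set.mem_sdiff, mem_closedBall_zero_iff, mem_ball_zero_iff, not_lt] at ha
    have hj1 : (1 : ℝ) ≤ 2 ^ j := one_le_pow₀ (by norm_num)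
    have := hN R L ρ g w hL hRL D hm hout a (2 ^ j) ha.2 ha.1 hj1 hjR
    refine this.trans ?_
    have e2 : ms ρ a (1 / 16) ≤ E := by
      rw [hE']
      apply nk_ms_mono hi D.nonneg
      intro x hx
      rw [mem_ball, dist_eq_norm] at hx
      have e1 : ‖x‖ ≤ ‖x - a‖ + ‖a‖ := by
        have := norm_add_le (x - a) a
        rwa [sub_add_cancel] at this
      have e2 : ‖a‖ ≤ ‖x‖ + ‖x - a‖ := by
        have := norm_sub_le x (x - a)
        rwa [sub_sub_cancel] at this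
      rw [Set.mem_sdiff, mem_ball_zero_iff, mem_ball_zero_iff, not_lt]
      constructor <;> linarith
    have e3 : ((2 : ℝ) ^ j) ^ (-κ) = ((2 : ℝ) ^ (-κ)) ^ j := by
      rw [← Real.rpow_natCast, ← Real.rpow_natCast, ← Real.rpow_mul (by norm_num), ← Real.rpow_mul (by norm_num),
        mul_comm]
    rw [e3]
    calc C₁ * ((2 : ℝ) ^ (-κ)) ^ j * ms ρ a (1 / 16) ≤ C₁ * ((2 : ℝ) ^ (-κ)) ^ j * E := by gcongr
      _ = _ := by ring
  have hgeo : ∑ j ∈ Finset.range M, ((2 : ℝ) ^ (-κ)) ^ j ≤ (1 - (2 : ℝ) ^ (-κ))⁻¹ := by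
    rw [← tsum_geometric_of_lt_one hq0.le hq1]
    exact (summable_geometric_of_lt_one hq0.le hq1).sum_le_tsum _ (fun i _ => by positivity)
  calc ∫ x in ball (0 : ℂ) (R / 8) \ ball 0 1, ρ x
      ≤ ∑ p ∈ I, ∫ x in ball ((((2 : ℝ) ^ p.1 : ℝ) : ℂ) * p.2) ((2 : ℝ) ^ p.1 / 16), ρ x :=
        nk_union hi D.nonneg I _ (fun _ _ => measurableSet_ball)
          (measurableSet_ball.diff measurableSet_ball) hcov
    _ ≤ ∑ p ∈ I, C₁ * E * ((2 : ℝ) ^ (-κ)) ^ p.1 := Finset.sum_le_sum hterm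
    _ ≤ ∑ p ∈ Finset.range M ×ˢ F, C₁ * E * ((2 : ℝ) ^ (-κ)) ^ p.1 :=
        Finset.sum_le_sum_of_subset_of_nonneg (Finset.filter_subset _ _) (fun _ _ _ => by positivity)
    _ = F.card * (C₁ * E * ∑ j ∈ Finset.range M, ((2 : ℝ) ^ (-κ)) ^ j) := by
        rw [Finset.sum_product]
        simp only [Finset.sum_const, nsmul_eq_mul]
        rw [Finset.mul_sum, Finset.mul_sum]
    _ ≤ F.card * (C₁ * E * (1 - (2 : ℝ) ^ (-κ))⁻¹) := by gcongr
    _ ≤ (F.card + 1) * (C₁ * E * (1 - (2 : ℝ) ^ (-κ))⁻¹) := by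
        gcongr
        linarith
    _ = _ := by ring

end Pool.Agent.W787.PS
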